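import Pool.Agent.X225.Ur.Space

/-!
# Uncountable cofinality of the polymorphism clones of `U_Q` and of the rational Urysohn sphere

Q1 and one of the two cases of Q2 of `MP_18f3df_al`.
-/

set_option autoImplicit false

open X225.Ur

namespace Pool.Agent.Results.MP_18f3df_al.UncountableCof

/-- The rational metric `m` makes `M` the rational Urysohn space: `M` is countable, every finite metric
space with rational distances embeds isometrically into `M`, and every isometry between finite subspaces
extends to an automorphism. -/
structure IsRationalUrysohnSpace {M : Type} (m : RMet M) : Prop where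
  countable : Countable M
  universal : ∀ (X : Type) [Finite X] (e : RMet X), ∃ g : X → M, ∀ x y, m.d (g x) (g y) = e.d x y
  homogeneous : ∀ (A : Finset M) (f : M → M), (∀ x ∈ A, ∀ y ∈ A, m.d (f x) (f y) = m.d x y) →
    ∃ α : M ≃ M, (∀ x y, m.d (α x) (α y) = m.d x y) ∧ ∀ x ∈ A, α x = f x

/-- The rational metric `m` makes `M` the rational Urysohn sphere: all distances are at most `1`, `M` is
countable, every finite metric space with rational distances at most `1` embeds isometrically into `M`,
and every isometry between finite subspaces extends to an automorphism. -/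
structure IsRationalUrysohnSphere {M : Type} (m : RMet M) : Prop where
  countable : Countable M
  bounded : ∀ x y, m.d x y ≤ 1
  universal : ∀ (X : Type) [Finite X] (e : RMet X), (∀ x y, e.d x y ≤ 1) →
    ∃ g : X → M, ∀ x y, m.d (g x) (g y) = e.d x y
  homogeneous : ∀ (A : Finset M) (f : M → M), (∀ x ∈ A, ∀ y ∈ A, m.d (f x) (f y) = m.d x y) →
    ∃ α : M ≃ M, (∀ x y, m.d (α x) (α y) = m.d x y) ∧ ∀ x ∈ A, α x = f x

theorem result :
    (∀ (M : Type) (m : RMet M), IsRationalUrysohnSpace m → UncountableCofinality (Pol m)) ∧
    (∀ (M : Type) (m : RMet M), IsRationalUrysohnSphere m → UncountableCofinality (Pol m)) := by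
  refine ⟨fun M m h => ?_, fun M m h => ?_⟩
  · have h' : IsUr (fun t => t) m :=
      ⟨h.countable, fun _ _ => rfl, fun X _ e _ => h.universal X e, h.homogeneous⟩
    exact cofinality_of isCap_id h' (seq_space h')
  · have h' : IsUr (fun t => min t 1) m :=
      ⟨h.countable, fun x y => min_eq_left (h.bounded x y),
        fun X _ e he => h.universal X e fun x y => by
          rw [← he x y]
          exact min_le_right _ _, h.homogeneous⟩
    exact cofinality_of isCap_min h' (seq_sphere h')

end Pool.Agent.Results.MP_18f3df_al.UncountableCof
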